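import Pool.Agent.TTC.StmtsF
import Pool.Agent.Helper92_TTC.FAM

set_option autoImplicit false

/-!
# Squad TTC, row FA6 (all one-parameter families of sextics; MP_160b6c_nt)
-/

namespace Pool.Agent.TTC.H46

open Polynomial NumberField Pool.Agent.SZT Pool.Agent.KDD Pool.Agent.TTC.H92

/-- The numerical inequality. -/
theorem num_ineq' (d n k H A₃ : ℕ) (ε l r s : ℝ) (hε : 0 < ε) (h4 : 4 * (k + 1) ≤ H)
    (hn : n ≤ d)
    (hl : l ≤ (n : ℝ) * (A₃ * Real.log (4 * (((k + 1) * H ^ (k + 1) : ℕ) : ℝ))))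
    (hr : (H : ℝ) ^ ε ≤ r) (hs : Real.log r ≤ s) :
    ε / ((A₃ + 1) * ((k + 2) * (d + 1))) * l ≤ s := by
  obtain ⟨l', hl'⟩ : ∃ l' : ℝ, l' = (n : ℝ) * Real.log (4 * (((k + 1) * H ^ (k + 1) : ℕ) : ℝ)) :=
    ⟨_, rfl⟩
  have h1 := num_ineq d n k H ε l' r s hε h4 hn (le_of_eq hl') hr hs
  refine le_trans ?_ h1
  have hk0 : (0 : ℝ) ≤ (k : ℝ) := Nat.cast_nonneg k
  have hd0 : (0 : ℝ) ≤ (d : ℝ) := Nat.cast_nonneg d
  have hA0 : (0 : ℝ) ≤ (A₃ : ℝ) := Nat.cast_nonneg A₃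
  have hl0 : 0 ≤ l' := by
    rw [hl']
    apply mul_nonneg (Nat.cast_nonneg n)
    apply Real.log_nonneg
    have h2 : 1 ≤ (k + 1) * H ^ (k + 1) := Nat.mul_pos (Nat.succ_pos k) (Nat.pow_pos (by omega))
    have h3 : (1 : ℝ) ≤ (((k + 1) * H ^ (k + 1) : ℕ) : ℝ) := by exact_mod_cast h2
    linarith
  have h2 : l ≤ A₃ * l' := by
    refine hl.trans (le_of_eq ?_)
    rw [hl']
    ring
  have h3 : ε / (((A₃ : ℝ) + 1) * (((k : ℝ) + 2) * (d + 1))) * l ≤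
      ε / (((A₃ : ℝ) + 1) * (((k : ℝ) + 2) * (d + 1))) * (A₃ * l') :=
    mul_le_mul_of_nonneg_left h2 (by positivity)
  refine h3.trans ?_
  have h4 : ε / (((A₃ : ℝ) + 1) * (((k : ℝ) + 2) * ((d : ℝ) + 1))) * (A₃ * l') =
      (ε / (((k : ℝ) + 2) * (d + 1)) * l') * ((A₃ : ℝ) / (A₃ + 1)) := by
    field_simp
  rw [h4]
  have h5 : (A₃ : ℝ) / (A₃ + 1) ≤ 1 := by
    rw [div_le_one (by positivity)]
    linarith
  exact mul_le_of_le_one_right (by positivity) h5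

theorem fam6 (hNA : Na6Stmt) (hSF : Sf6Stmt) (hBN : Bn6Stmt) (hFAC : FacStmt) (hCN2 : Cn2Stmt)
    (hOM : Om1Stmt) (hSIM : SimStmt) (hLO : Lo6Stmt) (hHT : Ht6Stmt) (hPL : Pl6Stmt)
    (hK : KDD.H18.KddPStatement) : Fam6Stmt := by
  intro d k δ hδ
  obtain ⟨A, hA⟩ := hBN k
  obtain ⟨A1, hA1⟩ := hFAC A
  obtain ⟨A2, hA2⟩ : ∃ A2, A2 = 2 * A1 + 2 := ⟨_, rfl⟩
  obtain ⟨ε, C0, hε, hC0, hcnt⟩ := hCN2 A2 δ hδ
  obtain ⟨A3, hA3⟩ := hHT
  obtain ⟨B, hB⟩ := hK d (ε / ((A3 + 1) * ((k + 2) * (d + 1)))) (by positivity)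
  refine ⟨B, C0 + A + (8 * (k + 1) + 1), by positivity, ?_⟩
  intro H F hH hF hsq hdb
  have hH1 : (1 : ℝ) ≤ (H : ℝ) := by exact_mod_cast hH
  have hHZ : (1 : ℤ) ≤ (H : ℤ) := by exact_mod_cast hH
  have hHδ : (1 : ℝ) ≤ (H : ℝ) ^ δ := Real.one_le_rpow hH1 hδ.le
  have hk0 : (0 : ℝ) ≤ (k : ℝ) := Nat.cast_nonneg k
  have hA0 : (0 : ℝ) ≤ (A : ℝ) := Nat.cast_nonneg A
  rcases lt_or_ge H (4 * (k + 1)) with h4 | h4
  · have h1 : {t : ℤ | |t| ≤ (H : ℤ) ∧ ¬ Good6 d B (fun i => (F i).eval t)} ⊆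
        ((Finset.Icc (-(H : ℤ)) H : Finset ℤ) : Set ℤ) := by
      rintro c ⟨hc, -⟩
      rw [Finset.coe_Icc]
      exact ⟨(abs_le.1 hc).1, (abs_le.1 hc).2⟩
    have h2 := Set.ncard_le_ncard h1 (Finset.finite_toSet _)
    rw [Set.ncard_coe_finset, Int.card_Icc] at h2
    have h6 : {t : ℤ | |t| ≤ (H : ℤ) ∧ ¬ Good6 d B (fun i => (F i).eval t)}.ncard ≤
        8 * (k + 1) + 1 := by omega
    have h7 : ({t : ℤ | |t| ≤ (H : ℤ) ∧ ¬ Good6 d B (fun i => (F i).eval t)}.ncard : ℝ) ≤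
        8 * ((k : ℝ) + 1) + 1 := by exact_mod_cast h6
    have h8 : 0 ≤ (C0 + A) * (H : ℝ) ^ δ := by positivity
    have h9 : 8 * ((k : ℝ) + 1) + 1 ≤ (8 * ((k : ℝ) + 1) + 1) * (H : ℝ) ^ δ :=
      le_mul_of_one_le_right (by positivity) hHδ
    rw [add_mul]
    linarith
  · obtain ⟨t₀, ht₀, ht₀'⟩ := hdb
    obtain ⟨t₁, ht₁⟩ := hsq
    obtain ⟨D, hD⟩ : ∃ D, D = d6 F := ⟨_, rfl⟩
    obtain ⟨E, hE⟩ : ∃ E, E = e6 F := ⟨_, rfl⟩
    obtain ⟨hSD, hSE⟩ := hA H F hH hF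
    rw [← hD] at hSD
    rw [← hE] at hSE
    have hNAt : ∀ t : ℂ, d6 (fun i => aeval t (F i)) = aeval t D ∧
        e6 (fun i => aeval t (F i)) = aeval t E := by
      intro t
      obtain ⟨-, h2, h3, -⟩ := hNA ℤ[X] ℂ (aeval t : ℤ[X] →ₐ[ℤ] ℂ).toRingHom F
      rw [hD, hE]
      exact ⟨h2, h3⟩
    have hD0 : D ≠ 0 := by
      intro h
      have h1 := (hNAt t₁).1
      rw [h, map_zero] at h1
      exact ht₁ h1
    have hDt : aeval t₀ D = 0 := by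
      rw [← (hNAt t₀).1]
      exact ht₀
    have hEt : aeval t₀ E ≠ 0 := by
      rw [← (hNAt t₀).2]
      exact ht₀'
    obtain ⟨φ, ρ, hφD, hφ1, hφS, hρ1, hρA, hφE⟩ := hA1 H D E t₀ hH hSD hSE hD0 hDt hEt
    have hpow : (H : ℤ) ^ A1 ≤ (H : ℤ) ^ A2 := pow_le_pow_right₀ hHZ (by omega)
    have hpow0 : (0 : ℤ) < (H : ℤ) ^ A1 := by positivity
    have hA2Z : (A2 : ℤ) = 2 * A1 + 2 := by exact_mod_cast hA2
    have hA10 : (0 : ℤ) ≤ (A1 : ℤ) := by positivity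
    have hφS2 : Siz A2 (A2 * (H : ℤ) ^ A2) φ := by
      refine ⟨hφS.1.trans (by omega), fun n => (hφS.2 n).trans ?_⟩
      exact mul_le_mul (by linarith) hpow hpow0.le (by positivity)
    have hn0 : (ρ : ℤ) ≤ A2 * (H : ℤ) ^ A2 := by
      calc (ρ : ℤ) ≤ A1 * (H : ℤ) ^ A1 := hρA
        _ ≤ A2 * (H : ℤ) ^ A2 := mul_le_mul (by linarith) hpow hpow0.le (by positivity)
    have h5 := hcnt H φ ρ hH hφ1 hφS2 hρ1 hn0
    have hsub : {t : ℤ | |t| ≤ (H : ℤ) ∧ ¬ Good6 d B (fun i => (F i).eval t)} ⊆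
        {t : ℤ | |t| ≤ (H : ℤ) ∧ (φ.eval t = 0 ∨
          ((∏ p ∈ (φ.eval t).natAbs.primeFactors.filter (fun p => ¬ p ∣ ρ), p : ℕ) : ℝ)
            < (H : ℝ) ^ ε)} ∪ (D.roots.toFinset : Set ℤ) := by
      rintro t ⟨ht, hbad⟩
      by_contra hcon
      rw [Set.mem_union, not_or] at hcon
      obtain ⟨hc1, hc2⟩ := hcon
      have hDt0 : D.eval t ≠ 0 := by
        intro h
        apply hc2
        rw [Finset.mem_coe, Multiset.mem_toFinset, Polynomial.mem_roots hD0]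
        exact h
      have hc3 : φ.eval t ≠ 0 ∧ (H : ℝ) ^ ε ≤
          ((∏ p ∈ (φ.eval t).natAbs.primeFactors.filter (fun p => ¬ p ∣ ρ), p : ℕ) : ℝ) := by
        by_contra h
        apply hc1
        refine ⟨ht, ?_⟩
        by_contra h'
        rw [not_or, not_lt] at h'
        exact h h'
      obtain ⟨hφt, hprod⟩ := hc3
      apply hbad
      obtain ⟨a, ha⟩ : ∃ a : Fin 7 → ℤ, a = fun i => (F i).eval t := ⟨_, rfl⟩
      rw [← ha]
      have hNa := hNA ℤ[X] ℤ (evalRingHom t) F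
      have hdra : d6 a = D.eval t := by
        rw [ha, hD]
        exact hNa.2.1
      have hera : e6 a = E.eval t := by
        rw [ha, hE]
        exact hNa.2.2.1
      obtain ⟨ha0, hdeg6, hsqf⟩ := hSF.1 a (by rw [hdra]; exact hDt0)
      refine ⟨hdeg6, hsqf, ?_⟩
      intro K _ _ hfr α hα hα3 Y hY x hx
      obtain ⟨P, hPd⟩ : ∃ P, P = (φ.eval t).natAbs.primeFactors.filter (fun p => ¬ p ∣ ρ) :=
        ⟨_, rfl⟩
      rw [← hPd] at hprod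
      have hpr : ∀ p ∈ P, p.Prime ∧ (p : ℤ) ∣ d6 a ∧ ¬ (p : ℤ) ∣ e6 a := by
        intro p hp
        rw [hPd, Finset.mem_filter] at hp
        have h1 := Nat.prime_of_mem_primeFactors hp.1
        have h2 : (p : ℤ) ∣ φ.eval t := Int.natCast_dvd.2 (Nat.dvd_of_mem_primeFactors hp.1)
        refine ⟨h1, ?_, ?_⟩
        · rw [hdra]
          exact h2.trans (Polynomial.eval_dvd hφD)
        · intro h3
          apply hp.2
          rw [hera] at h3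
          exact hφE t p h1 h2 h3
      obtain ⟨S, hS1, hS2⟩ := hPL K P (fun v => CubeFree v.val Y.f ∧ v (discr Y.f) < 1)
        (fun p hp => by
          obtain ⟨h1, h2, h3⟩ := hpr p hp
          obtain ⟨v, hv1, hv2⟩ := hSIM K a α p h1 h2 h3 hα hα3
          refine ⟨h1, v, hv1, ?_⟩
          rw [hY]
          exact hLO K v a α p h1 hv1 h2 h3 hα hv2)
      obtain ⟨hmon, hdeg, hint⟩ := hOM K a α ha0 hα
      rw [← hY] at hmon hdeg hint
      have hlog : Real.log ((∏ p ∈ P, p : ℕ) : ℝ) = ∑ p ∈ P, Real.log p := by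
        rw [Nat.cast_prod, Real.log_prod]
        intro p hp
        have := (hpr p hp).1.ne_zero
        exact_mod_cast this
      have hval : ∀ i, |a i| ≤ ((k : ℤ) + 1) * (H : ℤ) ^ (k + 1) := by
        intro i
        rw [ha]
        exact eval_le hH (hF i) ht
      obtain ⟨M, hM⟩ : ∃ M : ℕ, M = (k + 1) * H ^ (k + 1) := ⟨_, rfl⟩
      have hMZ : (M : ℤ) = ((k : ℤ) + 1) * (H : ℤ) ^ (k + 1) := by
        rw [hM]
        push_cast
        ring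
      have hM1 : 1 ≤ M := by
        rw [hM]
        exact Nat.mul_pos (Nat.succ_pos k) (Nat.pow_pos (by omega))
      have hineq : ε / ((A3 + 1) * ((k + 2) * (d + 1))) * lH Y.f ≤
          ∑ v ∈ S, Real.log (Ideal.absNorm v.maximalIdeal.asIdeal) := by
        refine num_ineq' d (Module.finrank ℚ K) k H A3 ε _ _ _ hε h4 hfr ?_ hprod ?_
        · rw [hY, ← hM]
          exact hA3 K a α M hM1 (fun i => by rw [hMZ]; exact hval i) ha0 hα
        · rw [hlog]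
          exact hS2
      exact hB K hfr Y hmon hdeg hint S hS1 hineq x hx
    have h2 := Set.ncard_le_ncard hsub ((fin_set _ _).union (Finset.finite_toSet _))
    have h3 := h2.trans (Set.ncard_union_le _ _)
    have h6 : (D.roots.toFinset : Set ℤ).ncard ≤ A := by
      rw [Set.ncard_coe_finset]
      exact (Multiset.toFinset_card_le _).trans ((Polynomial.card_roots' D).trans hSD.1)
    have h7 : ({t : ℤ | |t| ≤ (H : ℤ) ∧ ¬ Good6 d B (fun i => (F i).eval t)}.ncard : ℝ) ≤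
        ({t : ℤ | |t| ≤ (H : ℤ) ∧ (φ.eval t = 0 ∨
          ((∏ p ∈ (φ.eval t).natAbs.primeFactors.filter (fun p => ¬ p ∣ ρ), p : ℕ) : ℝ)
            < (H : ℝ) ^ ε)}.ncard : ℝ) + A := by
      have := h3.trans (Nat.add_le_add_left h6 _)
      exact_mod_cast this
    have h8 : (A : ℝ) ≤ A * (H : ℝ) ^ δ := le_mul_of_one_le_right hA0 hHδ
    have h9 : 0 ≤ (8 * ((k : ℝ) + 1) + 1) * (H : ℝ) ^ δ := by positivity
    rw [add_mul, add_mul]
    linarith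

end Pool.Agent.TTC.H46
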